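import Pool.Agent.Run7.h701.HK.Fld

/-!
# The Iitaka dimension of a nef isotropic divisor and the poles of rational functions

Let `X` be a projective hyperkähler manifold of any deformation type (or a normal projective variety
of irregularity zero with a Beauville–Bogomolov form) and `L` a nef divisor with `q(L) = 0`, not
numerically trivial. The Iitaka dimension of `L` is at least `k ≥ 1` if and only if there are `k`
algebraically independent rational functions on `X` whose polar divisors are orthogonal to `L`. So a
multiple of `L` is the pull back of an ample divisor by a Lagrangian fibration if and only if there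
are `dim X / 2` such functions (the step from maximal Iitaka dimension to semiampleness is a theorem of
Kawamata, and is not formalized here).

`NormalModel` and `IsPrimeDivisor` are defined in `Pool.Agent.Y172.Defs`, `cls` and `FiniteClasses` in
`Pool.Agent.N110.NV.Defs`, `NefD` and `IitakaGe` in `Pool.Agent.N110.DV.Defs`, `IsBBForm` in
`Pool.Agent.Run7.h701.HK.Defs` and `polar` in `Pool.Agent.Run7.h701.HK.Par`.
-/

set_option autoImplicit false

open FF Pool.Agent.Y172 Pool.Agent.N110 Pool.Agent.N110.DV Pool.Agent.Run7.h701.HK

/-- Let `X` be a normal projective variety of dimension `n` with generic point `y`, `b` a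
Beauville–Bogomolov form on `Cl X ⊗ ℚ = ℚ ^ ρ` and `L` a nef `ℚ`-divisor on `X` with nonzero class and
`b(L, L) = 0`. For `k ≥ 1` the Iitaka dimension of `L` is at least `k` if and only if there are `k`
algebraically independent rational functions on `X` whose polar divisors are orthogonal to `L`. -/
theorem Pool.Agent.Results.MP_c4558b_ag.IitakaField.result
    {K : Type} [Field K] [Algebra ℂ K] {N ρ n : ℕ} {y : Fin (N + 1) → K} (hy : NormalModel y)
    (hn : Algebra.trdeg ℂ K = n) {c : Place ℂ K → Fin ρ → ℚ}
    {b : LinearMap.BilinForm ℚ (Fin ρ → ℚ)} (hb : IsBBForm y c b) {L : Place ℂ K → ℚ}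
    (hL : {P | IsPrimeDivisor y P ∧ L P ≠ 0}.Finite) (hnef : NefD y n L)
    (hne : cls y c L ≠ 0) (hq : b (cls y c L) (cls y c L) = 0) {k : ℕ} (hk : 1 ≤ k) :
    IitakaGe y L k ↔ ∃ f : Fin k → K, AlgebraicIndependent ℂ f ∧
      ∀ i, b (cls y c L) (cls y c (polar (f i))) = 0 :=
  iitaka_iff hy hn hb hL hnef hne hq hk
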