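import Pool.Agent.Run7.h612.SY.IFun
import Pool.Agent.Run7.h701.HK.Main

/-!
# Rational functions with isotropic polar divisors on hyperkähler manifolds

Let `X` be a projective hyperkähler manifold of dimension `n = 2 r` (or a normal projective variety
with a Poisson bracket and a compatible Beauville–Bogomolov form `b` on `Cl X ⊗ ℚ`), and let `I` be
the set of the nonconstant rational functions `f` on `X` whose polar divisor `(f)_∞` is isotropic. For
`f` in `I` let `E f` be the set of the rational functions `g` with `b((f)_∞, (g)_∞) = 0`.

1. `E f` is a field, algebraically closed in the function field of `X` and Poisson commutative: it is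
   the function field of the base of a coisotropic fibration `X ⇢ B`, the Iitaka fibration of
   `(f)_∞`. Its nonconstant elements are in `I` and have the same field. If the bracket is
   nondegenerate then `dim B ≤ r`.
2. For `f`, `g` in `I` either `E f = E g`, and this is true if and only if the classes of the polar
   divisors are proportional, or `E f` and `E g` have only the constants in common, and then the
   divisor `(f)_∞ + (g)_∞` has positive square.
3. A nef divisor `L`, not numerically trivial, with `b(L, L) = 0` has positive Iitaka dimension if and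
   only if its class is proportional to the class of `(f)_∞` for some `f` in `I`, and then `E f` is
   the function field of the base of its Iitaka fibration.

So orthogonality is an equivalence relation on `I`, its classes together with the constants are
Poisson commutative fields, and they correspond to the coisotropic fibrations given by isotropic
divisors.

`NormalModel` and `IsPrimeDivisor` are defined in `Pool.Agent.Y172.Defs`, `localRing` and `Through` in
`Pool.Agent.Y172.Defs`, `cls` in `Pool.Agent.N110.NV.Defs`, `NefD` in `Pool.Agent.N110.DV.Defs`,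
`IsBBForm` in `Pool.Agent.Run7.h701.HK.Defs`, `polar` in `Pool.Agent.Run7.h701.HK.Par`, the other
definitions in `Run7.h612.SY`.
-/

set_option autoImplicit false

open FF Pool.Agent.Y172 Pool.Agent.N110 Pool.Agent.Run7.h701 Run7.h612.SY
open Pool.Agent.N110.DV (NefD)

/-- Let `X` be a normal projective variety of dimension `n` with generic point `y`, `br` a Poisson
bracket on `X` and `b` a compatible Beauville–Bogomolov form on `Cl X ⊗ ℚ = ℚ ^ ρ`. Then the set
`isoFun` of the nonconstant functions with isotropic polar divisor is the disjoint union of the sets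
of the nonconstant elements of the fields `orthFun f`, which are Poisson commutative, algebraically
closed and the fields of the Iitaka fibrations of the polar divisors; different fields correspond to
polar divisors whose classes are not proportional and whose sum has positive square; and they are the
fields of the Iitaka fibrations of the isotropic nef divisors of positive Iitaka dimension. -/
theorem Pool.Agent.Results.MP_c4558b_ag.IsotropicFunctions.result
    {K : Type} [Field K] [Algebra ℂ K] {N ρ n : ℕ} {y : Fin (N + 1) → K} (hy : NormalModel y)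
    (hn : Algebra.trdeg ℂ K = n) {br : K → K → K} (hbr : IsPoisson y br)
    {c : Place ℂ K → Fin ρ → ℚ} {b : LinearMap.BilinForm ℚ (Fin ρ → ℚ)}
    (hb : IsSymplecticForm y n br c b) :
    (∀ f ∈ isoFun y c b, ∃ E : IntermediateField ℂ K, (E : Set K) = orthFun y c b f ∧
      IsIitakaField y (HK.polar f) E ∧ IsCoisotropicFibration br E ∧
      (∀ g ∈ E, Transcendental ℂ g → g ∈ isoFun y c b ∧ orthFun y c b g = orthFun y c b f) ∧
      (Nondegenerate n br → ∀ k : ℕ, IitakaGe y (HK.polar f) k → 2 * k ≤ n)) ∧
    (∀ f ∈ isoFun y c b, ∀ g ∈ isoFun y c b,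
      (orthFun y c b f = orthFun y c b g ↔
        ∃ α : ℚ, 0 < α ∧ cls y c (HK.polar g) = α • cls y c (HK.polar f)) ∧
      (orthFun y c b f ≠ orthFun y c b g →
        orthFun y c b f ∩ orthFun y c b g = Set.range (algebraMap ℂ K) ∧
        0 < b (cls y c (HK.polar f) + cls y c (HK.polar g))
          (cls y c (HK.polar f) + cls y c (HK.polar g)))) ∧
    (∀ L : Place ℂ K → ℚ, IsDivisor y L →
      (NefD y n L ∨ ∀ P, IsPrimeDivisor y P → 0 ≤ b (cls y c L) (c P)) →
      cls y c L ≠ 0 → b (cls y c L) (cls y c L) = 0 →
      (IitakaGe y L 1 ↔ ∃ f ∈ isoFun y c b, ∃ α : ℚ, 0 < α ∧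
        cls y c (HK.polar f) = α • cls y c L) ∧
      ∀ f ∈ isoFun y c b, ∀ α : ℚ, 0 < α → cls y c (HK.polar f) = α • cls y c L →
        ∃ E : IntermediateField ℂ K, IsIitakaField y L E ∧ (E : Set K) = orthFun y c b f) := by
  refine ⟨fun f hf => ?_, fun f hf g hg => ?_, fun L hL hnef hne hq => ?_⟩
  · have hf0 := ne_zero_of_transc hf.1
    have hcomm := comm_movable hy hn hbr hb (divisor_polar hy hf0)
      (fun P hP => polar_movable hy hb.form hf0 hP) (cls_polar_ne hy hb.form hf.1) hf.2
    refine ⟨Run7.h612.AB.IField y (HK.polar f), orthFun_eq hy hb.form hf, iitakaField _,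
      ⟨(iitakaField _).closed, hcomm⟩, fun g hg hgt => ?_,
      fun hnd k hk => two_mul_iitaka hbr hnd hcomm hk⟩
    have h1 : g ∈ orthFun y c b f := by
      rw [← orthFun_eq hy hb.form hf]
      exact hg
    obtain ⟨α, hα, h2⟩ := (orth_iff_prop hy hb.form hf hgt).1 h1
    exact ⟨iso_of_mem hy hb.form hf hgt h1, orthFun_congr hα h2⟩
  · have h1 : orthFun y c b f = orthFun y c b g ↔
        ∃ α : ℚ, 0 < α ∧ cls y c (HK.polar g) = α • cls y c (HK.polar f) := by
      constructor
      · intro h
        rw [← orth_iff_prop hy hb.form hf hg.1, h]
        exact hg.2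
      · rintro ⟨α, hα, h⟩
        exact (orthFun_congr hα h).symm
    refine ⟨h1, fun h => ?_⟩
    have h2 : g ∉ orthFun y c b f := fun h3 => h (h1.2 ((orth_iff_prop hy hb.form hf hg.1).1 h3))
    exact ⟨inter_eq hy hb.form hf hg h2, big_sum hy hb.form hf hg h2⟩
  · have hmov : ∀ P, IsPrimeDivisor y P → 0 ≤ b (cls y c L) (c P) := fun P hP => by
      rcases hnef with h | h
      · exact HK.nef_pair hy hn hb.form hL h hP
      · exact h P hP
    obtain ⟨h1, h2⟩ := kappa_iff_fun hy hb.form hL hmov hne hq
    exact ⟨h1, fun f hf α hα h => ⟨Run7.h612.AB.IField y L, iitakaField L, h2 f hf α hα h⟩⟩
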